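import Pool.Agent.H715.TW.Stm

/-!
# Project TW (helper715), T6: soundness and completeness of the cubic test (helper549)
-/

set_option autoImplicit false

namespace Pool.Agent.H549.TW

open Pool.Agent.H528R2 (Vge Inert Test)
open Pool.Agent.H528R2
open Pool.Agent.H715.TW (LInert Nf TestL S_T1 S_T2 S_T5 S_T6s S_T6c)

theorem t6s (h : S_T1) : S_T6s := by
  rintro q N G hq ⟨u, v, w, u', v', w', h0, h1⟩ hN hG
  have hp := hq.1
  have h2 : N * Nf (-1) u' v' w' ≠ 0 := h1 ▸ h0
  have hN0 : N ≠ 0 := left_ne_zero_of_mul h2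
  have hN1 : Nf (-1) u' v' w' ≠ 0 := right_ne_zero_of_mul h2
  have d1 := h q (-1 + G) u v w hq (by rwa [neg_add_cancel_comm]) h0
  have d2 := h q (-1) u' v' w' hq (by
    rw [neg_add_cancel]
    exact Vge.zero q 1) hN1
  rw [h1, val_mul hp hN0 hN1] at d1
  exact hN ((Int.dvd_add_left d2).1 d1)

lemma mem_S {q : ℕ} (hq : q.Prime) {N : ℚ} (h : padicValRat q N ≠ 0) :
    q ∈ (N.num.natAbs * N.den).primeFactors := by
  have hN : N ≠ 0 := ne_zero_of_val h
  rw [Nat.mem_primeFactors]
  refine ⟨hq, ?_, mul_ne_zero (Int.natAbs_ne_zero.2 (Rat.num_ne_zero.2 hN)) N.den_nz⟩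
  by_contra hd
  apply h
  have h1 : ¬ q ∣ N.num.natAbs := fun h => hd (h.mul_right _)
  have h2 : ¬ q ∣ N.den := fun h => hd (h.mul_left _)
  rw [padicValRat, padicValInt, padicValNat.eq_zero_of_not_dvd h1,
    padicValNat.eq_zero_of_not_dvd h2]
  rfl

open Classical in
theorem t6c (h2 : S_T2) (h5 : S_T5) : S_T6c := by
  intro N G hN hG hG7
  -- the exponents of `e1`
  obtain ⟨f, hf⟩ : ∃ f : ℕ →₀ ℕ, ∀ q, f q =
      if LInert q then (padicValRat q N % 3).toNat else 0 := by
    refine ⟨Finsupp.onFinset (N.num.natAbs * N.den).primeFactors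
      (fun q => if LInert q then (padicValRat q N % 3).toNat else 0) ?_, fun q => rfl⟩
    intro q hq
    split_ifs at hq with hL
    · apply mem_S hL.1
      intro h0
      apply hq
      rw [h0]
      rfl
    · exact absurd rfl hq
  have hfs : ∀ q ∈ f.support, LInert q ∧ ¬ (3 : ℤ) ∣ padicValRat q N := by
    intro q hq
    rw [Finsupp.mem_support_iff, hf] at hq
    split_ifs at hq with hL
    · refine ⟨hL, fun hd => hq ?_⟩
      rw [Int.emod_eq_zero_of_dvd hd]
      rfl
    · exact absurd rfl hq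
  set e1 : ℕ := f.prod (· ^ ·) with he1
  have hpr : ∀ q ∈ f.support, q.Prime := fun q hq => (hfs q hq).1.1
  have hfac : e1.factorization = f := Nat.prod_pow_factorization_eq_self hpr
  have he0 : e1 ≠ 0 := by
    rw [he1, Finsupp.prod]
    exact Finset.prod_ne_zero_iff.2 fun q hq => pow_ne_zero _ (hpr q hq).ne_zero
  have hval : ∀ q : ℕ, q.Prime → padicValRat q (e1 : ℚ) = (f q : ℤ) := by
    intro q hq
    rw [padicValRat.of_nat, ← Nat.factorization_def e1 hq, hfac]
  have hdvd : ∀ q : ℕ, q.Prime → q ∣ e1 → q ∈ f.support := by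
    intro q hq hd
    rw [← hfac, Nat.support_factorization]
    exact Nat.mem_primeFactors.2 ⟨hq, hd, he0⟩
  -- valuations of `a = -1 + G`
  have hva : ∀ q : ℕ, q.Prime → padicValRat q G < 0 → padicValRat q (-1 + G) < 0 := by
    intro q hq h
    have hG0 : G ≠ 0 := ne_zero_of_val h.ne
    have h1 : Vge q (padicValRat q G + 1) (-1 : ℚ) := ((vge_one q).neg).mono (by omega)
    have h3 := val_add hq hG0 h1
    rw [add_comm, h3.2]
    exact h
  obtain ⟨l, hl, hl7, u, v, w, huvw⟩ := h5 (-1 + G) e1 he0 (fun q hq hd => by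
    rcases (Nat.Prime.dvd_mul hq).1 hd with h | h
    · have h7 : q = 7 := (Nat.prime_dvd_prime_iff_eq hq (by norm_num)).1 h
      rw [h7]
      exact hva 7 (by norm_num) hG7
    · obtain ⟨hL, h3⟩ := hfs q (hdvd q hq h)
      exact hva q hq (hG q hL h3))
  have hel : ((e1 * l : ℕ) : ℚ) ≠ 0 := by
    exact_mod_cast mul_ne_zero he0 hl.ne_zero
  obtain ⟨u', v', w', hx⟩ := h2 (((e1 * l : ℕ) : ℚ) / N) (div_ne_zero hel hN) (fun q hL => by
    have hq := hL.1
    have hlq : ¬ q ∣ l := by
      intro h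
      have h1 := (Nat.prime_dvd_prime_iff_eq hq hl).1 h
      have h3 := hL.2
      rw [h1] at h3
      omega
    rw [val_div hq hel hN, Nat.cast_mul, val_mul hq (by exact_mod_cast he0)
      (by exact_mod_cast hl.ne_zero), hval q hq, padicValRat.of_nat,
      padicValNat.eq_zero_of_not_dvd hlq, hf, if_pos hL]
    have h1 : 0 ≤ padicValRat q N % 3 := Int.emod_nonneg _ (by norm_num)
    rw [Int.toNat_of_nonneg h1]
    have h3 := Int.emod_add_mul_ediv (padicValRat q N) 3
    refine ⟨-(padicValRat q N / 3), ?_⟩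
    push_cast
    linarith)
  refine ⟨u, v, w, u', v', w', by rw [huvw]; exact hel, ?_⟩
  rw [huvw, ← hx]
  field_simp

end Pool.Agent.H549.TW
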