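import Pool.Agent.H715.TW.Stm
import Pool.Agent.H549.TW.T6
import Pool.Graph.R_seed8.H528R2.TestIff

/-!
# Project TW (helper715), EX: existence of the next term (helper549)
-/

set_option autoImplicit false

namespace Pool.Agent.H549.TW

open Pool.Agent.H528R2 (Vge Inert Test)
open Pool.Agent.H528R2 (test_iff val_div val_mul val_pow ne_zero_of_val)
open Pool.Agent.H715.TW

/-- multiples of `rk q * q ^ E` give very negative valuations -/
lemma low {q : ℕ} (hq : q.Prime) (hr : rk q ≠ 0) {E : ℕ} {n : ℤ} (hn : n ≠ 0)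
    (h : ((rk q * q ^ E : ℕ) : ℤ) ∣ n) : padicValRat q (zz n) < -2 * (E : ℤ) := by
  have := Fact.mk hq
  obtain ⟨j, rfl⟩ := h
  have hj : j ≠ 0 := right_ne_zero_of_mul hn
  have hqE : ((q ^ E : ℕ) : ℤ) ≠ 0 := by
    exact_mod_cast pow_ne_zero _ hq.ne_zero
  have e : ((rk q * q ^ E : ℕ) : ℤ) * j = (rk q : ℤ) * (((q ^ E : ℕ) : ℤ) * j) := by
    push_cast
    ring
  have h1 := Rank.rk_spec hr
  have h2 := Rank.zz_mul hq h1 (mul_ne_zero hqE hj)
  have h3 : padicValInt q (((q ^ E : ℕ) : ℤ) * j) = E + padicValInt q j := by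
    rw [padicValInt.mul hqE hj, padicValInt.of_nat, padicValNat.prime_pow]
  rw [e, h2, h3]
  push_cast
  have : (0 : ℤ) ≤ padicValInt q j := by positivity
  omega

theorem ex (hr : S_RKNZ) (ht : S_T6c) : S_EX := by
  classical
  intro M hM
  have h2M : 2 * M ≠ 0 := by omega
  have h7M : 7 * M ≠ 0 := by omega
  have a1 := zz_ne0 h2M
  have a2 := yy_ne h2M
  have a3 := zz_ne0 h7M
  have a4 := yy_ne h7M
  obtain ⟨Q, hQp, hQ7, hQ⟩ : ∃ Q : Finset ℕ, (∀ q ∈ Q, q.Prime) ∧ 7 ∈ Q ∧ ∀ q : ℕ, q.Prime →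
      (padicValRat q (zz (2 * M)) ≠ 0 ∨ padicValRat q (yy (2 * M)) ≠ 0 ∨
        padicValRat q (zz (7 * M)) ≠ 0 ∨ padicValRat q (yy (7 * M)) ≠ 0) → q ∈ Q := by
    refine ⟨{7} ∪ (((zz (2 * M)).num.natAbs * (zz (2 * M)).den).primeFactors ∪
      (((yy (2 * M)).num.natAbs * (yy (2 * M)).den).primeFactors ∪
      (((zz (7 * M)).num.natAbs * (zz (7 * M)).den).primeFactors ∪
      ((yy (7 * M)).num.natAbs * (yy (7 * M)).den).primeFactors))), ?_, ?_, ?_⟩
    · intro q hq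
      simp only [Finset.mem_union, Finset.mem_singleton] at hq
      rcases hq with h | h | h | h | h
      · rw [h]
        norm_num
      all_goals exact Nat.prime_of_mem_primeFactors h
    · simp
    · intro q hq h
      simp only [Finset.mem_union, Finset.mem_singleton]
      rcases h with h | h | h | h
      · exact Or.inr (Or.inl (mem_S hq h))
      · exact Or.inr (Or.inr (Or.inl (mem_S hq h)))
      · exact Or.inr (Or.inr (Or.inr (Or.inl (mem_S hq h))))
      · exact Or.inr (Or.inr (Or.inr (Or.inr (mem_S hq h))))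
  obtain ⟨E, hE1, hE2⟩ : ∃ E : ℕ, (∀ q ∈ Q, (padicValRat q (zz (2 * M))).natAbs < E) ∧
      ∀ q ∈ Q, (padicValRat q (zz (7 * M))).natAbs < E := by
    refine ⟨1 + (∑ q ∈ Q, (padicValRat q (zz (2 * M))).natAbs +
      ∑ q ∈ Q, (padicValRat q (zz (7 * M))).natAbs), fun q hq => ?_, fun q hq => ?_⟩
    · have := Finset.single_le_sum (f := fun q : ℕ => (padicValRat q (zz (2 * M))).natAbs)
        (fun _ _ => Nat.zero_le _) hq
      omega
    · have := Finset.single_le_sum (f := fun q : ℕ => (padicValRat q (zz (7 * M))).natAbs)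
        (fun _ _ => Nat.zero_le _) hq
      omega
  set M' : ℕ := ∏ q ∈ Q, (rk q * q ^ E) with hM'
  have hM'0 : M' ≠ 0 := Finset.prod_ne_zero_iff.2 fun q hq =>
    mul_ne_zero (hr q (hQp q hq)) (pow_ne_zero _ (hQp q hq).ne_zero)
  have hM'z : (M' : ℤ) ≠ 0 := by exact_mod_cast hM'0
  have hdvd : ∀ q ∈ Q, ((rk q * q ^ E : ℕ) : ℤ) ∣ (M' : ℤ) := fun q hq =>
    Int.natCast_dvd_natCast.2 (Finset.dvd_prod_of_mem _ hq)
  have b1 : 2 * (M' : ℤ) ≠ 0 := by omega
  have b2 : 7 * (M' : ℤ) ≠ 0 := by omega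
  have c1 : ∀ q ∈ Q, padicValRat q (zz (2 * (M' : ℤ))) < -2 * (E : ℤ) := fun q hq =>
    low (hQp q hq) (hr q (hQp q hq)) b1 ((hdvd q hq).mul_left 2)
  have c2 : ∀ q ∈ Q, padicValRat q (zz (7 * (M' : ℤ))) < -2 * (E : ℤ) := fun q hq =>
    low (hQp q hq) (hr q (hQp q hq)) b2 ((hdvd q hq).mul_left 7)
  have hG : ∀ q ∈ Q, padicValRat q (zz (7 * (M' : ℤ)) / zz (7 * M) ^ 2) < 0 := by
    intro q hq
    have hp := hQp q hq
    rw [val_div hp (zz_ne0 b2) (pow_ne_zero 2 a3), val_pow hp]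
    have h1 := c2 q hq
    have h2 := hE2 q hq
    push_cast
    omega
  refine ⟨(M' : ℤ), hM'z, ?_, ?_⟩
  · refine (test_iff (div_ne_zero a1 a2)).2 fun q hq hodd => ?_
    have hp := hq.1
    have hqQ : q ∈ Q := by
      apply hQ q hp
      by_contra hcon
      push Not at hcon
      rw [val_div hp a1 a2, hcon.1, hcon.2.1] at hodd
      exact absurd hodd (by decide)
    right
    rw [val_div hp a1 (zz_ne0 b1)]
    have h1 := c1 q hqQ
    have h2 := hE1 q hqQ
    omega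
  · refine ht _ _ (div_ne_zero a3 a4) (fun q hq h3 => ?_) (hG 7 hQ7)
    apply hG
    apply hQ q hq.1
    by_contra hcon
    push Not at hcon
    rw [val_div hq.1 a3 a4, hcon.2.2.1, hcon.2.2.2] at h3
    exact h3 (by norm_num)

end Pool.Agent.H549.TW
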